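import Pool.Agent.Helper66_D1.Tool
import Pool.Agent.Helper66_CY.Brk

/-!
# Part D1, module FEX: an endomorphism of the `N`-module `V`
-/

open scoped BigOperators

noncomputable section

namespace Pool.Agent.PP.D1.H39

open Pool.Agent.PP Pool.Agent.PP.D66 Pool.Agent.Helper51_AWC Pool.Agent.Helper79_WRA

theorem fex (hlft : LftdStmt) (hspd : SpdStmt) (hmcd : McdStmt) (hwgt : WgtStmt) : FexStmt := by
  intro ℓ _ F _ hF G _ _ N P b hD V _ _ _ ρ hb Y hY1 hY2 hY3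
  obtain ⟨T, hT0, hTY, hTn, hTs, hTm⟩ := hlft ℓ F hF G N P b hD V ρ hb Y hY1 hY2 hY3
  obtain ⟨g₀, c₁, hg, hc₁, hgT, hgt⟩ := hspd ℓ F hF G N P b hD V ρ hb T (hTY.trans hY2) hTn hTs hTm
  obtain ⟨⟨c, hc⟩, hw⟩ := hwgt F G N P hD.le
  obtain ⟨hw1, -⟩ := hw V V ρ ρ c hc
  obtain ⟨hf, -⟩ := hw1 g₀ hg
  obtain ⟨ψ, hψ⟩ := hmcd ℓ F G N P hD.le hD.card V V ρ ρ c c₁ hc hc₁ g₀ hg
  refine ⟨trW c ρ ρ g₀, hf, ?_, ?_⟩
  · intro h0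
    obtain ⟨t, ht, ht0⟩ := Submodule.exists_mem_ne_zero_of_ne_bot hT0
    have h1 : trW c ρ ρ g₀ t = 0 := by rw [h0]; rfl
    rw [hψ, LinearMap.add_apply, hgt t ht] at h1
    have h2 : trP ρ ρ P ψ t ∈ nrmV ρ P := CY66.trP_mem ρ ρ P ψ (hY2 (hTY ht))
    have h3 : t = - trP ρ ρ P ψ t := eq_neg_of_add_eq_zero_left h1
    have h4 : t ∈ T ⊓ nrmV ρ P := ⟨ht, by rw [h3]; exact neg_mem h2⟩
    rw [hTn, Submodule.mem_bot] at h4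
    exact ht0 h4
  · intro v hv
    rw [hψ, LinearMap.add_apply]
    exact add_mem (hTY (hgT v hv)) (hY1.le (CY66.trP_mem ρ ρ P ψ hv))

end Pool.Agent.PP.D1.H39
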